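import Pool.Agent.U251.LD.StmQ

/-!
Project LDQ (helper251), package VARQ (helper95): the asymptotic of the structure function of the
divisor problem holds for all `N ≥ h^(-3)`. Port of `Pool.Agent.U446.LB.VARQ` (helper446).
-/

set_option autoImplicit false

namespace Pool.Agent.U95.LD.VARQ

open Real Pool.Agent.U251.LD

theorem t_VARQ (h1 : S_VAR) (h2 : S_UP) : S_VARQ := by
  intro ε hε
  obtain ⟨C, hC, -, hup⟩ := h2
  obtain ⟨h₁, hh₁, hvar⟩ := h1 (ε / 2) (by linarith)
  have he : (0 : ℝ) < exp (-1) := exp_pos _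
  have hq : (0 : ℝ) < (ε / (32 * C)) ^ 2 := by positivity
  refine ⟨min h₁ (min (exp (-1)) ((ε / (32 * C)) ^ 2)), lt_min hh₁ (lt_min he hq), ?_, ?_⟩
  · refine (min_le_right _ _).trans ((min_le_left _ _).trans ?_)
    rw [exp_le_one_iff]
    norm_num
  intro h h0 hle N hN
  have hle1 : h ≤ h₁ := hle.trans (min_le_left _ _)
  have hle2 : h ≤ exp (-1) := hle.trans ((min_le_right _ _).trans (min_le_left _ _))
  have hle3 : h ≤ (ε / (32 * C)) ^ 2 := hle.trans ((min_le_right _ _).trans (min_le_right _ _))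
  have hle1' : h ≤ 1 := hle2.trans (by rw [exp_le_one_iff]; norm_num)
  have hlog : 1 ≤ log (1 / h) := by
    rw [one_div, log_inv]
    have h3 : log h ≤ log (exp (-1)) := log_le_log h0 hle2
    rw [log_exp] at h3
    linarith
  obtain ⟨N₀, hN₀⟩ := hvar h h0 hle1
  -- the auxiliary width
  set k : ℝ := h * √h with hk
  have hs0 : 0 < √h := sqrt_pos.2 h0
  have hs1 : √h ≤ 1 := by
    rw [sqrt_le_one]
    exact hle1'
  have hk0 : 0 < k := mul_pos h0 hs0
  have hk1 : k ≤ 1 := by
    calc k ≤ 1 * 1 := mul_le_mul hle1' hs1 hs0.le (by norm_num)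
      _ = 1 := by norm_num
  have hk2 : k ^ 2 = h ^ 3 := by
    rw [hk, mul_pow, sq_sqrt h0.le]
    ring
  have hklog : log (1 / k) = 3 / 2 * log (1 / h) := by
    rw [one_div, one_div, log_inv, log_inv, hk, log_mul h0.ne' hs0.ne', log_sqrt h0.le]
    ring
  have hbig : ∀ n : ℕ, N ≤ n → 1 ≤ (n : ℝ) * k ^ 2 := by
    intro n hn
    have h3 : h ^ (-3 : ℝ) ≤ (n : ℝ) := hN.trans (by exact_mod_cast hn)
    have h4 : h ^ (-3 : ℝ) = (h ^ 3)⁻¹ := by
      rw [rpow_neg h0.le]
      congr 1
      exact_mod_cast rpow_natCast h 3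
    rw [h4] at h3
    rw [hk2]
    have h5 : 0 < h ^ 3 := by positivity
    have h6 := mul_le_mul_of_nonneg_right h3 h5.le
    rwa [inv_mul_cancel₀ h5.ne'] at h6
  -- the difference
  have key : ∀ N' : ℕ, N ≤ N' →
      |∑ n ∈ Finset.Icc 1 N', cd n ^ 2 * (1 - cos (2 * π * (√n * h))) -
        ∑ n ∈ Finset.Icc 1 N, cd n ^ 2 * (1 - cos (2 * π * (√n * h)))| ≤
      ε / 2 * (h * log (1 / h) ^ 3) := by
    intro N' hNN
    have hsub : Finset.Icc 1 N ⊆ Finset.Icc 1 N' := Finset.Icc_subset_Icc_right hNN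
    rw [← Finset.sum_sdiff hsub, add_sub_cancel_right]
    have hnn : ∀ n : ℕ, 0 ≤ cd n ^ 2 * (1 - cos (2 * π * (√n * h))) := by
      intro n
      have := cos_le_one (2 * π * (√n * h))
      exact mul_nonneg (sq_nonneg _) (by linarith)
    rw [abs_of_nonneg (Finset.sum_nonneg fun n _ => hnn n)]
    calc ∑ n ∈ Finset.Icc 1 N' \ Finset.Icc 1 N, cd n ^ 2 * (1 - cos (2 * π * (√n * h)))
        ≤ ∑ n ∈ Finset.Icc 1 N' \ Finset.Icc 1 N, cd n ^ 2 * min 2 (2 * π ^ 2 * (n * k ^ 2)) := by
          refine Finset.sum_le_sum fun n hn => ?_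
          have hn' : N ≤ n := by
            rw [Finset.mem_sdiff, Finset.mem_Icc, Finset.mem_Icc] at hn
            omega
          refine mul_le_mul_of_nonneg_left ?_ (sq_nonneg _)
          have h3 := neg_one_le_cos (2 * π * (√n * h))
          have h4 := hbig n hn'
          have h5 : (1 : ℝ) ≤ π ^ 2 := by
            have := pi_gt_three
            nlinarith
          have h6 : (2 : ℝ) ≤ 2 * π ^ 2 * (n * k ^ 2) := by nlinarith
          rw [min_eq_left h6]
          linarith
      _ ≤ ∑ n ∈ Finset.Icc 1 N', cd n ^ 2 * min 2 (2 * π ^ 2 * (n * k ^ 2)) := by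
          refine Finset.sum_le_sum_of_subset_of_nonneg Finset.sdiff_subset fun n _ _ => ?_
          have h3 : (0 : ℝ) ≤ min 2 (2 * π ^ 2 * (n * k ^ 2)) := le_min (by norm_num) (by positivity)
          exact mul_nonneg (sq_nonneg _) h3
      _ ≤ C * (k * (1 + log (1 / k)) ^ 3) := hup N' k hk0 hk1
      _ ≤ ε / 2 * (h * log (1 / h) ^ 3) := by
          rw [hklog]
          have h3 : √h ≤ ε / (32 * C) := by
            rw [sqrt_le_left (by positivity)]
            exact hle3
          have h4 : 32 * C * √h ≤ ε := by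
            rw [le_div_iff₀ (by positivity)] at h3
            linarith
          have h5 : 1 + 3 / 2 * log (1 / h) ≤ 5 / 2 * log (1 / h) := by linarith
          have h5' : (1 + 3 / 2 * log (1 / h)) ^ 3 ≤ (5 / 2 * log (1 / h)) ^ 3 :=
            pow_le_pow_left₀ (by linarith) h5 3
          have h6 : C * (k * (1 + 3 / 2 * log (1 / h)) ^ 3) ≤ C * (k * (5 / 2 * log (1 / h)) ^ 3) :=
            mul_le_mul_of_nonneg_left (mul_le_mul_of_nonneg_left h5' hk0.le) hC.le
          have h7 : C * (k * (5 / 2 * log (1 / h)) ^ 3) =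
              32 * C * √h * (h * log (1 / h) ^ 3) * (125 / 256) := by
            rw [hk]
            ring
          have h9 : 0 ≤ h * log (1 / h) ^ 3 := mul_nonneg h0.le (pow_nonneg (by linarith) 3)
          have h8 : 32 * C * √h * (h * log (1 / h) ^ 3) ≤ ε * (h * log (1 / h) ^ 3) :=
            mul_le_mul_of_nonneg_right h4 h9
          have h10 : 0 ≤ ε * (h * log (1 / h) ^ 3) := mul_nonneg hε.le h9
          linarith
  have hA := hN₀ (max N N₀) (le_max_right _ _)
  have hB := key (max N N₀) (le_max_left _ _)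
  rw [abs_le] at hA hB ⊢
  constructor <;> linarith [hA.1, hA.2, hB.1, hB.2]

end Pool.Agent.U95.LD.VARQ
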